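import Pool.Agent.Zk62.OZ.Stm

/-!
# From the charts of a log smooth model to homogeneous coordinates
-/

set_option autoImplicit false

namespace Pool.Agent.Zk50.OZ

theorem t_LMS : Pool.Agent.Zk62.OZ.S_LMS := by
  intro k K _ _ _ _ T I _ M hfr
  obtain ⟨I', hI', z, J, hM⟩ := Pool.Agent.W418.Z.modelG_of_LM M
  refine Pool.Agent.Zk15.hasSm_of_model (I := I') (w := z) (J := J) ?_
  refine ⟨fun i => trivial, hM.z0, hM.cv, ?_, ?_, fun h => h.elim⟩
  · intro j hj
    have h1 := hM.sm j hj
    have h2 : IsNoetherianRing (Algebra.adjoin k (Set.range fun i => z i / z j)) :=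
      Algebra.FiniteType.isNoetherianRing k _
    exact { isRegularLocalRing_localization := fun q _ =>
              Pool.Agent.H920R2.regular_of_smooth (k := k) q }
  · intro j hj x _
    obtain ⟨a, ha⟩ := hM.aa j hj
    obtain ⟨y, hy, y', hy', h0, hx⟩ := hfr a x
    exact ⟨y, ha hy, y', ha hy', h0, hx⟩

end Pool.Agent.Zk50.OZ
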